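import Pool.Agent.H19.BFL.Stmts2
import Pool.Agent.H36.KBX.Coef

/-!
# Row JTE: values from jets
-/

set_option autoImplicit false

namespace Pool.BFL

open Finset
open Pool.Agent.H36.KBX (bx eval_bound)

theorem eval_sh {n : ℕ} (y v : Fin n → ℝ) (F : Pl n) :
    MvPolynomial.eval v (sh y F) = MvPolynomial.eval (fun i => v i + y i) F := by
  unfold sh
  induction F using MvPolynomial.induction_on with
  | C a =>
    rw [MvPolynomial.aeval_C]
    simp
  | add p q hp hq => rw [map_add, map_add, map_add, hp, hq]
  | mul_X p i hp => rw [map_mul, map_mul, map_mul, hp]; simp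

theorem degree_sh {n K : ℕ} (y : Fin n → ℝ) (F : Pl n) (hF : F.totalDegree ≤ K) :
    (sh y F).totalDegree ≤ K := by
  refine le_trans ?_ hF
  unfold sh
  rw [MvPolynomial.aeval_def, MvPolynomial.eval₂_eq']
  refine MvPolynomial.totalDegree_finsetSum_le fun d hd => ?_
  refine (MvPolynomial.totalDegree_mul _ _).trans ?_
  have h0 : (algebraMap ℝ (Pl n) (MvPolynomial.coeff d F)).totalDegree = 0 := by
    rw [MvPolynomial.algebraMap_eq, MvPolynomial.totalDegree_C]
  rw [h0, zero_add]
  refine (MvPolynomial.totalDegree_finsetProd _ _).trans ?_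
  have h1 : ∀ i ∈ (Finset.univ : Finset (Fin n)),
      ((MvPolynomial.X i + MvPolynomial.C (y i) : Pl n) ^ d i).totalDegree ≤ d i := by
    intro i _
    refine (MvPolynomial.totalDegree_pow _ _).trans ?_
    have h2 : (MvPolynomial.X i + MvPolynomial.C (y i) : Pl n).totalDegree ≤ 1 := by
      refine (MvPolynomial.totalDegree_add _ _).trans ?_
      rw [MvPolynomial.totalDegree_X, MvPolynomial.totalDegree_C]
      simp
    calc d i * _ ≤ d i * 1 := Nat.mul_le_mul_left _ h2
      _ = d i := Nat.mul_one _
  refine (Finset.sum_le_sum h1).trans ?_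
  have h3 : ∑ i, d i = d.sum fun _ e => e := by
    rw [Finsupp.sum_fintype _ _ fun _ => rfl]
  rw [h3]
  exact MvPolynomial.le_totalDegree hd

theorem eval_homog {n i : ℕ} {q : Pl n} (hq : q.IsHomogeneous i) (r : ℝ) (w : Fin n → ℝ) :
    MvPolynomial.eval (fun l => r * w l) q = r ^ i * MvPolynomial.eval w q := by
  rw [MvPolynomial.eval_eq', MvPolynomial.eval_eq', Finset.mul_sum]
  refine Finset.sum_congr rfl fun d hd => ?_
  have h1 : ∑ l, d l = i := by
    have h2 := hq (MvPolynomial.mem_support_iff.1 hd)
    rw [← h2, Finsupp.weight_apply, Finsupp.sum_fintype _ _ fun _ => by simp]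
    simp
  have h3 : ∏ l, (r * w l) ^ d l = r ^ i * ∏ l, w l ^ d l := by
    rw [← h1, ← Finset.prod_pow_eq_pow_sum, ← Finset.prod_mul_distrib]
    exact Finset.prod_congr rfl fun l _ => mul_pow _ _ _
  rw [h3]
  ring

theorem jte_thm : JTEStmt := by
  intro n K
  refine ⟨(K + 1) * (bx n K).card + 1, ?_, ?_⟩
  · have : (0 : ℝ) ≤ (K + 1) * (bx n K).card := by positivity
    linarith
  intro F y r S hF hr hS hj b hb
  have e1 : MvPolynomial.eval b F =
      ∑ i ∈ range (K + 1), MvPolynomial.eval (fun l => b l - y l) (jt i F y) := by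
    have h1 : MvPolynomial.eval b F = MvPolynomial.eval (fun l => b l - y l) (sh y F) := by
      rw [eval_sh]
      congr 1
      simp
    rw [h1, ← map_sum]
    congr 1
    unfold jt
    conv_lhs => rw [← MvPolynomial.sum_homogeneousComponent (sh y F)]
    refine Finset.sum_subset ?_ fun i _ hi => ?_
    · intro i hi
      rw [Finset.mem_range] at hi ⊢
      have := degree_sh y F hF
      omega
    · refine MvPolynomial.homogeneousComponent_eq_zero _ _ ?_
      rw [Finset.mem_range] at hi
      omega
  have h2 : ∀ i ∈ range (K + 1),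
      |MvPolynomial.eval (fun l => b l - y l) (jt i F y)| ≤ (bx n K).card * S := by
    intro i hi
    have hi' : i ≤ K := Nat.lt_succ_iff.1 (Finset.mem_range.1 hi)
    have hh : (jt i F y).IsHomogeneous i := MvPolynomial.homogeneousComponent_isHomogeneous _ _
    have e2 : (fun l => b l - y l) = fun l => r * ((b l - y l) / r) := by
      funext l
      field_simp
    rw [e2, eval_homog hh, abs_mul, abs_of_pos (pow_pos hr i)]
    have h3 : |MvPolynomial.eval (fun l => (b l - y l) / r) (jt i F y)| ≤
        (bx n K).card * (S / r ^ i * 1 ^ (n * K)) := by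
      refine eval_bound _ ?_ _ _ le_rfl (hj i hi') _ fun l => ?_
      · exact (MvPolynomial.IsHomogeneous.totalDegree_le hh).trans hi'
      · rw [abs_div, abs_of_pos hr, div_le_one hr]
        exact hb l
    rw [one_pow, mul_one] at h3
    calc r ^ i * _ ≤ r ^ i * ((bx n K).card * (S / r ^ i)) :=
          mul_le_mul_of_nonneg_left h3 (pow_pos hr i).le
      _ = (bx n K).card * S := by
          have : r ^ i ≠ 0 := (pow_pos hr i).ne'
          field_simp
  rw [e1]
  refine (Finset.abs_sum_le_sum_abs _ _).trans ((Finset.sum_le_sum h2).trans ?_)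
  rw [Finset.sum_const, Finset.card_range, nsmul_eq_mul]
  push_cast
  nlinarith

end Pool.BFL
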